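import Pool.Agent.H43.BZ.Stm4

/-!
# `LSRATE`: the rate of blow-up at each velocity scale, Landau equation
-/

set_option autoImplicit false

open MeasureTheory Metric Set Filter Topology
open scoped RealInnerProductSpace ENNReal

namespace Pool.Agent.H585.BZ

open Pool.Agent.H43.BZ

lemma P_scale {d : ℕ} {R : ℝ} (hR : 0 < R) (v : E d) :
    P d (R⁻¹ • v) ≤ (max 1 (R ^ 2)) ^ (4 * (d + 3)) * P d v := by
  have hm1 : (1 : ℝ) ≤ max 1 (R ^ 2) := le_max_left _ _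
  have hm2 : R ^ 2 ≤ max 1 (R ^ 2) := le_max_right _ _
  have hm0 : 0 < max 1 (R ^ 2) := lt_of_lt_of_le one_pos hm1
  set m : ℝ := max 1 (R ^ 2) with hm
  unfold P
  have hn : ‖R⁻¹ • v‖ ^ 2 = (R ^ 2)⁻¹ * ‖v‖ ^ 2 := by
    rw [norm_smul, norm_inv, Real.norm_of_nonneg hR.le, mul_pow, inv_pow]
  rw [hn]
  have hv : 0 ≤ ‖v‖ ^ 2 := by positivity
  have h1 : 1 + ‖v‖ ^ 2 ≤ m * (1 + (R ^ 2)⁻¹ * ‖v‖ ^ 2) := by
    have h2 : ‖v‖ ^ 2 ≤ m * ((R ^ 2)⁻¹ * ‖v‖ ^ 2) := by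
      have h3 : R ^ 2 * ((R ^ 2)⁻¹ * ‖v‖ ^ 2) ≤ m * ((R ^ 2)⁻¹ * ‖v‖ ^ 2) :=
        mul_le_mul_of_nonneg_right hm2 (by positivity)
      have h4 : R ^ 2 * ((R ^ 2)⁻¹ * ‖v‖ ^ 2) = ‖v‖ ^ 2 := by
        field_simp
      linarith
    linarith
  have h2 : (1 + ‖v‖ ^ 2) ^ (4 * (d + 3)) ≤ m ^ (4 * (d + 3)) * (1 + (R ^ 2)⁻¹ * ‖v‖ ^ 2) ^ (4 * (d + 3)) := by
    rw [← mul_pow]
    exact pow_le_pow_left₀ (by positivity) h1 _
  have hA : 0 < (1 + ‖v‖ ^ 2) ^ (4 * (d + 3)) := by positivity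
  have hB : 0 < (1 + (R ^ 2)⁻¹ * ‖v‖ ^ 2) ^ (4 * (d + 3)) := by positivity
  rw [← div_eq_mul_inv, le_div_iff₀ hA, inv_mul_le_iff₀ hB, mul_comm _ (m ^ (4 * (d + 3)))]
  exact h2

lemma P_nonneg {d : ℕ} (v : E d) : 0 ≤ P d v := by
  unfold P
  positivity

theorem LSRATE (hr : S_LRATE) (hs : S_LSCAL) : S_LSRATE := by
  intro d hd γ hγ1 hγ2
  obtain ⟨c, hc, h⟩ := hr d hd γ hγ1 hγ2
  refine ⟨c, hc, ?_⟩
  intro T f hT hf t₀ ht₀ N R hR hN hsmall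
  have hg := hs d hd γ T R f hT hR hf
  have hρ0 : 0 < R ^ ((d : ℝ) + γ - 1) := Real.rpow_pos_of_pos hR _
  have hρR : R ^ ((d : ℝ) + γ - 1) * R = R ^ ((d : ℝ) + γ) := by
    rw [Real.rpow_sub_one hR.ne']
    field_simp
  have hval : ∀ (t : ℝ) (x v : E d), scal γ R f (R * t) x (R⁻¹ • v) =
      R ^ ((d : ℝ) + γ - 1) * f t x v := by
    intro t x v
    unfold scal
    rw [mul_div_cancel_left₀ _ hR.ne', smul_inv_smul₀ hR.ne']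
  have hval2 : ∀ (t : ℝ) (x v : E d), scal γ R f (R * t) x v =
      R ^ ((d : ℝ) + γ - 1) * f t x (R • v) := by
    intro t x v
    unfold scal
    rw [mul_div_cancel_left₀ _ hR.ne']
  have hmem : ∀ t ∈ Ico 0 T, R * t ∈ Ico 0 (R * T) := fun t ht =>
    ⟨mul_nonneg hR.le ht.1, mul_lt_mul_of_pos_left ht.2 hR⟩
  obtain ⟨h1, B, hB⟩ := h (R * T) (scal γ R f) (by positivity) hg (R * t₀) (hmem t₀ ht₀)
    (R ^ ((d : ℝ) + γ - 1) * N) (fun x v => by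
      rw [hval2]
      have h2 := hN x (R • v)
      rw [inv_smul_smul₀ hR.ne'] at h2
      have h3 := mul_le_mul_of_nonneg_left h2 hρ0.le
      linarith) (by
      have e : R ^ ((d : ℝ) + γ - 1) * N * (R * T - R * t₀) =
        N * (R ^ ((d : ℝ) + γ - 1) * R) * (T - t₀) := by ring
      rw [e, hρR]
      exact hsmall)
  refine ⟨fun t ht x v => ?_, (R ^ ((d : ℝ) + γ - 1))⁻¹ * |B| * (max 1 (R ^ 2)) ^ (4 * (d + 3)),
    fun t ht x v => ?_⟩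
  · have h2 := h1 (R * t) ⟨mul_le_mul_of_nonneg_left ht.1 hR.le, mul_lt_mul_of_pos_left ht.2 hR⟩ x
      (R⁻¹ • v)
    rw [hval] at h2
    have h3 : R ^ ((d : ℝ) + γ - 1) * f t x v ≤
        R ^ ((d : ℝ) + γ - 1) * (2 * N * P d (R⁻¹ • v)) := by linarith
    exact le_of_mul_le_mul_left h3 hρ0
  · have h2 := hB (R * t) (hmem t ht) x (R⁻¹ • v)
    rw [hval] at h2
    have h3 : B * P d (R⁻¹ • v) ≤ |B| * ((max 1 (R ^ 2)) ^ (4 * (d + 3)) * P d v) :=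
      (mul_le_mul_of_nonneg_right (le_abs_self B) (P_nonneg _)).trans
        (mul_le_mul_of_nonneg_left (P_scale hR v) (abs_nonneg B))
    have h4 : R ^ ((d : ℝ) + γ - 1) * f t x v ≤ R ^ ((d : ℝ) + γ - 1) *
        ((R ^ ((d : ℝ) + γ - 1))⁻¹ * |B| * (max 1 (R ^ 2)) ^ (4 * (d + 3)) * P d v) := by
      have e : R ^ ((d : ℝ) + γ - 1) *
        ((R ^ ((d : ℝ) + γ - 1))⁻¹ * |B| * (max 1 (R ^ 2)) ^ (4 * (d + 3)) * P d v) =
          |B| * ((max 1 (R ^ 2)) ^ (4 * (d + 3)) * P d v) := by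
        field_simp
      rw [e]
      exact h2.trans h3
    exact le_of_mul_le_mul_left h4 hρ0

end Pool.Agent.H585.BZ
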